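import Pool.Agent.L5helper68.DH.Defs

set_option autoImplicit false

namespace Pool.Agent.L5helper68.DH

theorem homeomorphic_symm {c d : Code} (h : Homeomorphic c d) : Homeomorphic d c :=
  h.map Homeomorph.symm

theorem decide_mem (P : Prop) (i : Decidable P) (x : Part Bool) (h1 : P → true ∈ x)
    (h2 : ¬ P → false ∈ x) : @decide P i ∈ x := by
  by_cases h : P
  · rw [decide_eq_true h]
    exact h1 h
  · rw [decide_eq_false h]
    exact h2 h

/-- J11, with J1, J8, J9, J10 as hypotheses -/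
theorem decide_twins_of
    (plHomeo_symm : ∀ {P Q : Set (ℕ → ℝ)}, PLHomeo P Q → PLHomeo Q P)
    (isManifold_sum : ∀ {c d : Code}, IsManifold (faces c) → IsManifold (faces d) →
      IsManifold (faces (sum c d)))
    (computable_sum : Computable (fun p : Code × Code => sum p.1 p.2))
    (diffeo_sum : ∀ {a b c d : Code}, IsConnected (real (faces a)) →
      IsConnected (real (faces b)) → IsConnected (real (faces c)) →
      IsConnected (real (faces d)) → (Diffeomorphic (sum a b) (sum c d) ↔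
      (Diffeomorphic a c ∧ Diffeomorphic b d) ∨ (Diffeomorphic a d ∧ Diffeomorphic b c)))
    (homeo_sum : ∀ {a b c d : Code}, Homeomorphic a c → Homeomorphic b d →
      Homeomorphic (sum a b) (sum c d))
    {f : Code × Code →. Bool} (hf : Solves f) {Y Y' : ℕ → Code}
    (hY : Twins Y Y') : ComputablePred (fun p : ℕ × ℕ =>
      Diffeomorphic (Y p.1) (Y p.2) ∧ Diffeomorphic (Y' p.1) (Y' p.2)) := by
  classical
  obtain ⟨hpart, hsol⟩ := hf
  have key : ∀ p : ℕ × ℕ,
      (Diffeomorphic (sum (Y p.1) (Y' p.2)) (sum (Y' p.1) (Y p.2)) ↔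
        (Diffeomorphic (Y p.1) (Y p.2) ∧ Diffeomorphic (Y' p.1) (Y' p.2))) := by
    intro p
    rw [diffeo_sum (hY.conn _) (hY.conn' _) (hY.conn' _) (hY.conn _)]
    constructor
    · rintro (h | h)
      · exact absurd h.1 (hY.exotic _)
      · exact ⟨h.1, plHomeo_symm h.2⟩
    · rintro ⟨h1, h2⟩
      exact Or.inr ⟨h1, plHomeo_symm h2⟩
  have hadm : ∀ p : ℕ × ℕ, Admissible (sum (Y p.1) (Y' p.2)) (sum (Y' p.1) (Y p.2)) := fun p =>
    ⟨isManifold_sum (hY.mfd _) (hY.mfd' _), isManifold_sum (hY.mfd' _) (hY.mfd _),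
      homeo_sum (hY.homeo _) (homeomorphic_symm (hY.homeo _))⟩
  have hin : Computable (fun p : ℕ × ℕ => (sum (Y p.1) (Y' p.2), sum (Y' p.1) (Y p.2))) := by
    have c1 : Computable (fun p : ℕ × ℕ => Y p.1) := hY.comp.comp Computable.fst
    have c2 : Computable (fun p : ℕ × ℕ => Y' p.2) := hY.comp'.comp Computable.snd
    have c3 : Computable (fun p : ℕ × ℕ => Y' p.1) := hY.comp'.comp Computable.fst
    have c4 : Computable (fun p : ℕ × ℕ => Y p.2) := hY.comp.comp Computable.snd
    exact (computable_sum.comp (c1.pair c2)).pair (computable_sum.comp (c3.pair c4))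
  refine ⟨fun p => Classical.propDecidable _, ?_⟩
  have hg : Partrec (fun p : ℕ × ℕ => f (sum (Y p.1) (Y' p.2), sum (Y' p.1) (Y p.2))) :=
    hpart.comp hin
  refine Partrec.of_eq hg ?_
  intro p
  apply Part.eq_some_iff.2
  exact decide_mem _ _ _ (fun h => (hsol _ _ (hadm p)).1 ((key p).2 h))
    (fun h => (hsol _ _ (hadm p)).2 (fun h' => h ((key p).1 h')))

end Pool.Agent.L5helper68.DH
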